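import Mathlib
import Pool.Agent.LRQ.ZF

set_option autoImplicit false

namespace Pool.Agent.Results.MP_f1b527_co.HalfRangeExact

open Finset
open Pool.Agent.MP_f1b527_co Pool.Agent.LRE Pool.Agent.LRT Pool.Agent.LRQ

/-- The number of comparable pairs of a poset on `n` points. -/
noncomputable def numComp {n : ℕ} (P : PartialOrder (Fin n)) : ℕ :=
  {p : Fin n × Fin n | P.lt p.1 p.2}.ncard

/-- The number of linear extensions of a poset on `n` points (a linear extension is recorded by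
the position `σ a` of each point `a`). -/
noncomputable def numExt {n : ℕ} (P : PartialOrder (Fin n)) : ℕ :=
  {σ : Equiv.Perm (Fin n) | ∀ a b, P.lt a b → σ a < σ b}.ncard

/-- The set of values `e(P)`, for posets `P` with `n` points and `k` comparable pairs. -/
def extValues (n k : ℕ) : Set ℕ :=
  {e | ∃ P : PartialOrder (Fin n), numComp P = k ∧ numExt P = e}

/-- `k` lies on level `m`: `(m-1)(n-m+1) < k ≤ m(n-m)` (this forces `2 m ≤ n`). -/
def Level (n k m : ℕ) : Prop :=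
  1 ≤ m ∧ (m - 1) * (n - m + 1) < k ∧ k ≤ m * (n - m)

/-- `n! · c! q! / (c+q+1)! · (q + (c+1)/(ρ+1))`, where `k = q c + ρ`, `0 ≤ ρ < c`. -/
def rectVal (n k c : ℕ) : ℚ :=
  (n.factorial : ℚ) * (((c.factorial : ℚ) * ((k / c).factorial : ℚ)) /
    ((c + k / c + 1).factorial : ℚ)) *
    (((k / c : ℕ) : ℚ) + ((c : ℚ) + 1) / (((k % c : ℕ) : ℚ) + 1))

/-- `(m-1)! N!/(d+1)`, where `N = n - m + 1`, `d = k - (m-1) N`. -/
def starVal (n k m : ℕ) : ℚ :=
  ((m - 1).factorial : ℚ) * ((n - m + 1).factorial : ℚ) /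
    (((k - (m - 1) * (n - m + 1) : ℕ) : ℚ) + 1)

open Classical in
theorem numComp_eq {n : ℕ} (P : PartialOrder (Fin n)) :
    numComp P = cp P.lt Finset.univ := by
  unfold numComp cp C
  have h : {p : Fin n × Fin n | P.lt p.1 p.2}
      = ((Finset.univ.filter (fun p : Fin n × Fin n => P.lt p.1 p.2) : Finset (Fin n × Fin n)) :
        Set (Fin n × Fin n)) := by
    ext p
    simp
  rw [h, Set.ncard_coe_finset, Finset.card_filter, ← Finset.univ_product_univ,
    Finset.sum_product]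

open Classical in
theorem exists_poset {n : ℕ} (r : Fin n → Fin n → Prop) (h1 : ∀ x, ¬ r x x)
    (h2 : ∀ a b c, r a b → r b c → r a c) :
    ∃ P : PartialOrder (Fin n), numComp P = cp r Finset.univ ∧ numExt P = (extSet r).ncard := by
  have : IsStrictOrder (Fin n) r := { irrefl := h1, trans := h2 }
  let P : PartialOrder (Fin n) := partialOrderOfSO r
  have hlt : ∀ a b, P.lt a b ↔ r a b := fun a b => Iff.rfl
  refine ⟨P, ?_, ?_⟩
  · rw [numComp_eq]
    unfold cp
    apply Finset.sum_congr rfl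
    intro a _
    apply Finset.sum_congr rfl
    intro b _
    exact C_congr (hlt a b)
  · rfl

theorem rect_eq (n k c : ℕ) (hc : 1 ≤ c) :
    ((rectVal n k c : ℚ) : ℝ) = (n.factorial : ℝ) * NN c k := by
  rw [NN_eq c k hc]
  unfold rectVal
  have h1 := Pool.Agent.LRP.hh_fac c (k / c)
  have h2 : c + k / c + 1 = (k / c + c) + 1 := by ring
  have h3 : ((k / c + c).factorial : ℝ) ≠ 0 := by
    exact_mod_cast (Nat.factorial_pos _).ne'
  have h4 : (c : ℝ) + ((k / c : ℕ) : ℝ) + 1 ≠ 0 := by positivity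
  have h5 : (((k / c + c) + 1 : ℕ) : ℝ) = (c : ℝ) + ((k / c : ℕ) : ℝ) + 1 := by
    push_cast
    ring
  rw [h2, Nat.factorial_succ]
  push_cast
  push_cast at h5
  rw [h5, ← h1]
  field_simp

theorem star_eq (m M j : ℕ) (hm : 1 ≤ m) (hmj : m ≤ j) :
    ((starVal (M + m) ((m - 1) * M + j) m : ℚ) : ℝ) =
      ((m - 1).factorial : ℝ) * (M + 1).factorial / ((j : ℝ) - m + 2) := by
  have e1 : M + m - m = M := by omega
  have e2 : (m - 1) * M + j - (m - 1) * (M + 1) = j - (m - 1) := by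
    have : (m - 1) * (M + 1) = (m - 1) * M + (m - 1) := by ring
    omega
  unfold starVal
  rw [e1, e2]
  push_cast
  rw [Nat.cast_sub (by omega), Nat.cast_sub hm]
  push_cast
  congr 1
  ring

/-- numerical lemma: the level of `k` -/
theorem exists_level (n k : ℕ) (hk : 1 ≤ k) (h : 4 * k ≤ n ^ 2) : ∃ m, Level n k m := by
  have hP : k ≤ (n / 2) * (n - n / 2) := by
    rcases Nat.even_or_odd' n with ⟨t, rfl | rfl⟩
    · have e1 : 2 * t / 2 = t := by omega
      have e2 : 2 * t - t = t := by omega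
      rw [e1, e2]
      nlinarith
    · have e1 : (2 * t + 1) / 2 = t := by omega
      have e2 : 2 * t + 1 - t = t + 1 := by omega
      rw [e1, e2]
      have e3 : (2 * t + 1) ^ 2 = 4 * (t * (t + 1)) + 1 := by ring
      omega
  classical
  have hex : ∃ m, k ≤ m * (n - m) := ⟨n / 2, hP⟩
  set m := Nat.find hex with hm
  have hm1 : k ≤ m * (n - m) := Nat.find_spec hex
  have hmq : m ≤ n / 2 := Nat.find_min' hex hP
  have hm0 : 1 ≤ m := by
    by_contra hcon
    have : m = 0 := by omega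
    rw [this] at hm1
    omega
  have hm2 : ¬ (k ≤ (m - 1) * (n - (m - 1))) := Nat.find_min hex (by omega)
  refine ⟨m, ⟨hm0, ?_, hm1⟩⟩
  have : n - (m - 1) = n - m + 1 := by omega
  rw [this] at hm2
  omega

/-- a level is at most `n/2` -/
theorem level_le (n k m : ℕ) (h : Level n k m) : 2 * m ≤ n := by
  obtain ⟨hm, h1, h2⟩ := h
  obtain ⟨a, rfl⟩ : ∃ a, m = a + 1 := ⟨m - 1, by omega⟩
  rw [Nat.add_sub_cancel] at h1
  rcases Nat.lt_or_ge n (a + 1) with h3 | h3
  · have h4 : n - (a + 1) = 0 := by omega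
    rw [h4] at h2
    omega
  · obtain ⟨M, rfl⟩ : ∃ M, n = M + (a + 1) := ⟨n - (a + 1), by omega⟩
    rw [Nat.add_sub_cancel] at h1 h2
    have h4 : a * (M + 1) < (a + 1) * M := lt_of_lt_of_le h1 h2
    have h5 : a * (M + 1) = a * M + a := by ring
    have h6 : (a + 1) * M = a * M + M := by ring
    omega

open Classical in
/-- one level -/
theorem level_exact (n k m : ℕ) (hlev : Level n k m) :
    ∃ e : ℕ, IsGreatest (extValues n k) e ∧
      IsGreatest {x : ℚ | x = starVal n k m ∨ ∃ c : ℕ, m ≤ c ∧ c ≤ n - m ∧ x = rectVal n k c}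
        (e : ℚ) := by
  have h2m := level_le n k m hlev
  obtain ⟨hm, hl1, hl2⟩ := hlev
  obtain ⟨M, rfl⟩ : ∃ M, n = M + m := ⟨n - m, by omega⟩
  have e1 : M + m - m = M := by omega
  rw [e1] at hl1 hl2
  rw [e1]
  have hmM : m ≤ M := by omega
  have e2 : (m - 1) * (M + 1) = (m - 1) * M + (m - 1) := by ring
  have e3 : m * M = (m - 1) * M + M := by
    obtain ⟨a, rfl⟩ : ∃ a, m = a + 1 := ⟨m - 1, by omega⟩
    rw [Nat.add_sub_cancel]
    ring
  obtain ⟨j, rfl⟩ : ∃ j, k = (m - 1) * M + j := ⟨k - (m - 1) * M, by omega⟩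
  have hmj : m ≤ j := by omega
  have hjM : j ≤ M := by omega
  set k := (m - 1) * M + j with hk
  -- the largest value
  set S : Finset ℚ := insert (starVal (M + m) k m) ((Finset.Icc m M).image (rectVal (M + m) k))
    with hS
  have hSne : S.Nonempty := ⟨_, Finset.mem_insert_self _ _⟩
  obtain ⟨V, hVS, hVmax⟩ : ∃ V ∈ S, ∀ x ∈ S, x ≤ V :=
    ⟨S.max' hSne, S.max'_mem hSne, fun x hx => S.le_max' x hx⟩
  have hmemS : ∀ x : ℚ, x ∈ S ↔ (x = starVal (M + m) k m ∨
      ∃ c : ℕ, m ≤ c ∧ c ≤ M ∧ x = rectVal (M + m) k c) := by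
    intro x
    rw [hS, Finset.mem_insert, Finset.mem_image]
    constructor
    · rintro (h | ⟨c, hc, rfl⟩)
      · exact Or.inl h
      · rw [Finset.mem_Icc] at hc
        exact Or.inr ⟨c, hc.1, hc.2, rfl⟩
    · rintro (h | ⟨c, hc1, hc2, rfl⟩)
      · exact Or.inl h
      · exact Or.inr ⟨c, Finset.mem_Icc.2 ⟨hc1, hc2⟩, rfl⟩
  have hst := star_eq m M j hm hmj
  rw [← hk] at hst
  -- the value occurs
  obtain ⟨r, r1, r2, r3, r4⟩ : ∃ r : Fin (M + m) → Fin (M + m) → Prop, (∀ x, ¬ r x x) ∧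
      (∀ a b c, r a b → r b c → r a c) ∧ cp r univ = k ∧
      ((extSet r).ncard : ℝ) = ((V : ℚ) : ℝ) := by
    rcases (hmemS V).1 hVS with h | ⟨c, hc1, hc2, h⟩
    · rw [h, hst]
      exact z1_star m M j hm hmj hjM
    · rw [h, rect_eq _ _ _ (by omega)]
      exact exists_NN m M k c hc1 (by omega) hc2 hl2
  -- the upper bound
  have hub : UB (M + m) k ((V : ℚ) : ℝ) := by
    obtain ⟨l, rfl⟩ : ∃ l, m = l + 1 := ⟨m - 1, by omega⟩
    rw [Nat.add_sub_cancel] at hk
    rw [hk]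
    apply UB_all M l hmM j hmj hjM
    · intro c hc1 hc2
      rw [← hk, ← rect_eq _ _ _ (by omega)]
      exact_mod_cast hVmax _ ((hmemS _).2 (Or.inr ⟨c, hc1, hc2, rfl⟩))
    · have h1 : ((starVal (M + (l + 1)) k (l + 1) : ℚ) : ℝ) ≤ ((V : ℚ) : ℝ) := by
        exact_mod_cast hVmax _ ((hmemS _).2 (Or.inl rfl))
      rw [hst, Nat.add_sub_cancel] at h1
      refine le_trans (le_of_eq ?_) h1
      congr 1
      push_cast
      ring
  obtain ⟨P, p1, p2⟩ := exists_poset r r1 r2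
  refine ⟨(extSet r).ncard, ⟨⟨P, by rw [p1, r3], p2⟩, ?_⟩, ?_⟩
  · rintro e ⟨Q, hQ, rfl⟩
    have h1 := hub Q.lt (fun x => @lt_irrefl _ Q.toPreorder x)
      (fun x y z => @lt_trans _ Q.toPreorder x y z) (by rw [← numComp_eq, hQ])
    rw [← r4] at h1
    exact_mod_cast h1
  · have h2 : (((extSet r).ncard : ℕ) : ℚ) = V := by
      have h3 : ((((extSet r).ncard : ℕ) : ℚ) : ℝ) = ((V : ℚ) : ℝ) := by
        rw [Rat.cast_natCast, r4]
      exact_mod_cast h3
    rw [h2]
    constructor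
    · exact (hmemS V).1 hVS
    · intro x hx
      exact hVmax x ((hmemS x).2 hx)

/-- All `1 ≤ k ≤ n²/4` lie on a level `m`, and the maximum number of linear extensions of a poset
with `n` points and `k` comparable pairs is the largest of the explicit numbers `starVal n k m` and
`rectVal n k c`, `m ≤ c ≤ n - m`. -/
theorem result :
    (∀ n k : ℕ, 1 ≤ k → 4 * k ≤ n ^ 2 → ∃ m : ℕ, Level n k m) ∧
    (∀ n k m : ℕ, Level n k m →
      ∃ e : ℕ, IsGreatest (extValues n k) e ∧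
        IsGreatest {x : ℚ | x = starVal n k m ∨ ∃ c : ℕ, m ≤ c ∧ c ≤ n - m ∧ x = rectVal n k c}
          (e : ℚ)) :=
  ⟨exists_level, level_exact⟩

end Pool.Agent.Results.MP_f1b527_co.HalfRangeExact
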