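import Mathlib
import Pool.Agent.FTP.T9

set_option autoImplicit false

namespace Pool.Agent.Results.MP_f1b527_co.LogCore

open Finset
open Pool.Agent.MP_f1b527_co Pool.Agent.FTP

/-- The number of comparable pairs of a poset on `n` points. -/
noncomputable def numComp {n : ℕ} (P : PartialOrder (Fin n)) : ℕ :=
  {p : Fin n × Fin n | P.lt p.1 p.2}.ncard

/-- The number of linear extensions of a poset on `n` points (a linear extension is recorded by
the position `σ a` of each point `a`). -/
noncomputable def numExt {n : ℕ} (P : PartialOrder (Fin n)) : ℕ :=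
  {σ : Equiv.Perm (Fin n) | ∀ a b, P.lt a b → σ a < σ b}.ncard

/-- The set of values `e(P)`, for posets `P` with `n` points and `k` comparable pairs. -/
def extValues (n k : ℕ) : Set ℕ :=
  {e | ∃ P : PartialOrder (Fin n), numComp P = k ∧ numExt P = e}

/-- `e(n,k)`: the largest number of linear extensions of a poset with `n` points and `k`
comparable pairs (and `0` if there is no such poset). -/
noncomputable def maxExt (n k : ℕ) : ℕ := sSup (extValues n k)

/-- The down-sets and the up-sets are nested (equivalently: `P` is a semiorder). -/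
def Nested {n : ℕ} (P : PartialOrder (Fin n)) : Prop :=
  ∀ x y, ((∀ z, P.lt z x → P.lt z y) ∧ (∀ z, P.lt y z → P.lt x z)) ∨
    ((∀ z, P.lt z y → P.lt z x) ∧ (∀ z, P.lt x z → P.lt y z))

/-- `lev` is the height function of `P` (so that the levels are antichains), it takes exactly the
values `0, ..., h-1`, and points whose levels differ by at least two are comparable. -/
structure Levels {n : ℕ} (P : PartialOrder (Fin n)) (h : ℕ) (lev : Fin n → ℕ) : Prop where
  lt : ∀ x y, P.lt x y → lev x < lev y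
  pred : ∀ x, 0 < lev x → ∃ y, P.lt y x ∧ lev y + 1 = lev x
  bdd : ∀ x, lev x < h
  surj : ∀ i < h, ∃ x, lev x = i
  two : ∀ x y, lev x + 2 ≤ lev y → P.lt x y

/-- The level `i`. -/
def level {n : ℕ} (lev : Fin n → ℕ) (i : ℕ) : Finset (Fin n) := univ.filter fun x => lev x = i

open Classical in
/-- The mixed levels: those with a point that is incomparable to some point of another level. -/
noncomputable def mixed {n : ℕ} (P : PartialOrder (Fin n)) (h : ℕ) (lev : Fin n → ℕ) : Finset ℕ :=
  (range h).filter fun i => ∃ x y, lev x = i ∧ lev y ≠ i ∧ ¬ P.lt x y ∧ ¬ P.lt y x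

/-- Twins: points with the same comparabilities. -/
def Twin {n : ℕ} (P : PartialOrder (Fin n)) (x y : Fin n) : Prop :=
  ∀ z, (P.lt x z ↔ P.lt y z) ∧ (P.lt z x ↔ P.lt z y)

open Classical in
/-- The classes of twins. -/
noncomputable def twinClasses {n : ℕ} (P : PartialOrder (Fin n)) : Finset (Finset (Fin n)) :=
  univ.image fun x => univ.filter fun y => Twin P x y

open Classical in
theorem numComp_eq {n : ℕ} (P : PartialOrder (Fin n)) :
    numComp P = cp P.lt Finset.univ := by
  unfold numComp cp C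
  have h : {p : Fin n × Fin n | P.lt p.1 p.2}
      = ((Finset.univ.filter (fun p : Fin n × Fin n => P.lt p.1 p.2) : Finset (Fin n × Fin n)) :
        Set (Fin n × Fin n)) := by
    ext p
    simp
  rw [h, Set.ncard_coe_finset, Finset.card_filter, ← Finset.univ_product_univ,
    Finset.sum_product]

theorem lt_irr {n : ℕ} (P : PartialOrder (Fin n)) : ∀ x, ¬ P.lt x x := fun x =>
  @lt_irrefl _ P.toPreorder x

theorem lt_tr {n : ℕ} (P : PartialOrder (Fin n)) : ∀ a b c, P.lt a b → P.lt b c → P.lt a c :=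
  fun _ _ _ => @lt_trans _ P.toPreorder _ _ _

open Classical in
theorem numExt_eq {n : ℕ} (P : PartialOrder (Fin n)) : numExt P = lin P.lt univ :=
  extSet_ncard P.lt (lt_irr P)

theorem exists_poset {n : ℕ} (r : Fin n → Fin n → Prop) (h1 : ∀ x, ¬ r x x)
    (h2 : ∀ a b c, r a b → r b c → r a c) : ∃ P : PartialOrder (Fin n), P.lt = r := by
  have : IsStrictOrder (Fin n) r := { irrefl := h1, trans := h2 }
  exact ⟨partialOrderOfSO r, rfl⟩

theorem mx_greatest {n k e : ℕ} (h : MX n k e) : IsGreatest (extValues n k) e := by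
  obtain ⟨⟨r, h1, h2, h3, h4⟩, h5⟩ := h
  constructor
  · obtain ⟨P, rfl⟩ := exists_poset r h1 h2
    exact ⟨P, (numComp_eq P).trans h3, (numExt_eq P).trans h4⟩
  · rintro e' ⟨P, hP, rfl⟩
    rw [numExt_eq]
    exact h5 P.lt (lt_irr P) (lt_tr P) ((numComp_eq P).symm.trans hP)

theorem maxExt_eq {n k e : ℕ} (h : MX n k e) : maxExt n k = e := (mx_greatest h).csSup_eq

theorem bdd {n k : ℕ} : BddAbove (extValues n k) := by
  refine ⟨(Set.univ : Set (Equiv.Perm (Fin n))).ncard, ?_⟩
  rintro e ⟨P, _, rfl⟩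
  exact Set.ncard_le_ncard (Set.subset_univ _) (Set.toFinite _)

theorem maxExt_spec {n k : ℕ} (h : (extValues n k).Nonempty) : MX n k (maxExt n k) := by
  have h1 : maxExt n k ∈ extValues n k := Nat.sSup_mem h bdd
  obtain ⟨P, hP, hP2⟩ := h1
  refine ⟨⟨P.lt, lt_irr P, lt_tr P, (numComp_eq P).symm.trans hP, (numExt_eq P).symm.trans hP2⟩,
    fun r h1 h2 h3 => ?_⟩
  obtain ⟨Q, rfl⟩ := exists_poset r h1 h2
  exact le_csSup bdd ⟨Q, (numComp_eq Q).trans h3, numExt_eq Q⟩

theorem result (n k : ℕ) (hn : 1 ≤ n) (hk : k ≤ n.choose 2) :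
    (∃ (P : PartialOrder (Fin n)) (h : ℕ) (lev : Fin n → ℕ),
      numComp P = k ∧ numExt P = maxExt n k ∧ Nested P ∧ Levels P h lev ∧
      -- at most `4 log₂ n` levels are mixed
      2 ^ (mixed P h lev).card ≤ n ^ 4 ∧
      -- the other levels are summands, and the rest is again extremal
      (∃ (m j : ℕ) (f : Fin m ↪ Fin n) (Q : PartialOrder (Fin m)),
        (∀ x, (∃ a, f a = x) ↔ lev x ∈ mixed P h lev) ∧ (∀ a b, Q.lt a b ↔ P.lt (f a) (f b)) ∧
        numComp Q = j ∧ numExt Q = maxExt m j ∧
        m + ∑ i ∈ range h \ mixed P h lev, (level lev i).card = n ∧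
        n ^ 2 + 2 * j = 2 * k + m ^ 2 + ∑ i ∈ range h \ mixed P h lev, (level lev i).card ^ 2 ∧
        maxExt n k = (∏ i ∈ range h \ mixed P h lev, (level lev i).card.factorial) *
          maxExt m j) ∧
      -- there are few classes of twins
      h ≤ (twinClasses P).card ∧
      4 ^ ((twinClasses P).card - h) ≤
        3 ^ ((twinClasses P).card - h) * (n * (n - 1) - 2 * k + 1) ^ 3 ∧
      ∏ K ∈ twinClasses P, (K.card + 1) ≤
        (∏ i ∈ range h, ((level lev i).card + 1)) * (n * (n - 1) - 2 * k + 1) ^ 3) ∧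
    -- the recursion for large `k`
    (∀ s : ℕ, n ^ 4 < 2 ^ (s + 1) → s * (n ^ 2 - 2 * k) < n ^ 2 →
      IsGreatest {v | ∃ a, 1 ≤ a ∧ a ≤ n ∧ a * (n - a) ≤ k ∧
        v = a.factorial * maxExt (n - a) (k - a * (n - a))} (maxExt n k)) := by
  classical
  obtain ⟨r, hr⟩ := exists_best hn hk
  obtain ⟨lev, hl⟩ := exists_lev hr.nst
  obtain ⟨h, hH, hH'⟩ := exists_height hl
  obtain ⟨P, hP⟩ := exists_poset r hr.nst.irr hr.nst.tr
  have hmx := hr.mx
  have hmax := maxExt_eq hmx
  have h2u : M2 r univ = n * (n - 1) - 2 * k := by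
    have h2 := M2_cp r (S := univ) hr.nst.irr
      fun a c h1 h2 => hr.nst.irr a (hr.nst.tr a c a h1 h2)
    rw [card_univ, Fintype.card_fin, hr.cpk] at h2
    rw [Nat.mul_sub, mul_one]
    omega
  have hmix : mixed P h lev = NC r lev h := by
    unfold mixed NC
    rw [hP]
  have htw : twinClasses P = cl r := by
    unfold twinClasses cl cls Twin tw
    rw [hP]
  have hlev : ∀ i, level lev i = LL lev i := by
    intro i
    unfold level LL
    congr
  constructor
  · obtain ⟨c1, c2, c3, c4⟩ := core_main hr hl hH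
    obtain ⟨b1, -, b3⟩ := bound_num hn hr hl hH hH'
    have b4 := bound_all hn hr hl hH
    rw [h2u] at b3 b4
    refine ⟨P, h, lev, ?_, ?_, ?_, ?_, ?_, ?_, ?_, ?_, ?_⟩
    · rw [numComp_eq, hP, hr.cpk]
    · rw [numExt_eq, hP, hmax]
    · unfold Nested
      rw [hP]
      exact fun x y => (hr.nst.nest x y).imp id id
    · refine ⟨?_, ?_, hH, hH', ?_⟩
      · rw [hP]
        exact hl.lt
      · rw [hP]
        exact hl.ex
      · rw [hP]
        exact fun x y hxy => hl.two hr.nst hxy
    · rw [hmix]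
      exact NC_bound hn hr hl h
    · rw [hmix]
      set R := WJ lev (NC r lev h) with hR
      have hmap : (univ : Finset (Fin R.card)).map (R.orderEmbOfFin rfl).toEmbedding = R :=
        map_orderEmbOfFin_univ R rfl
      obtain ⟨Q, hQ⟩ := exists_poset (fun a b : Fin R.card =>
        r ((R.orderEmbOfFin rfl).toEmbedding a) ((R.orderEmbOfFin rfl).toEmbedding b))
        (fun a => hr.nst.irr _) (fun a b c => hr.nst.tr _ _ _)
      refine ⟨R.card, cp r R, (R.orderEmbOfFin rfl).toEmbedding, Q, ?_, ?_, ?_, ?_, ?_, ?_, ?_⟩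
      · intro x
        have h1 : x ∈ R ↔ ∃ a, (R.orderEmbOfFin rfl).toEmbedding a = x := by
          conv_lhs => rw [← hmap, mem_map]
          exact ⟨fun ⟨a, _, h⟩ => ⟨a, h⟩, fun ⟨a, h⟩ => ⟨a, mem_univ _, h⟩⟩
        rw [← h1, hR, mem_WJ]
      · intro a b
        rw [hQ, hP]
      · rw [numComp_eq, hQ]
        conv_rhs => rw [← hmap, LRE.e1_cp]
      · rw [numExt_eq, hQ, maxExt_eq c1]
        conv_rhs => rw [← hmap, LRE.e1_lin]
      · simp only [hlev]
        exact c3
      · simp only [hlev]
        exact c4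
      · simp only [hlev]
        rw [hmax, maxExt_eq c1]
        exact c2
    · rw [htw]
      exact b1
    · rw [htw]
      exact b3
    · rw [htw]
      simp only [hlev]
      exact b4
  · intro s hs hks
    constructor
    · obtain ⟨i, hi, hi2⟩ := exists_clean hn hr hl hH hs hks
      obtain ⟨c1, c2, c3⟩ := red_main hr hl hi hi2
      obtain ⟨x, hx⟩ := hH' i hi
      refine ⟨(LL lev i).card, card_pos.2 ⟨x, mem_LL.2 hx⟩, ?_, c1, ?_⟩
      · have := card_le_univ (LL lev i)
        rwa [Fintype.card_fin] at this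
      · rw [hmax, maxExt_eq c2]
        exact c3
    · rintro v ⟨a, _, ha2, ha3, rfl⟩
      by_cases hne : (extValues (n - a) (k - a * (n - a))).Nonempty
      · rw [hmax]
        exact mx_lower ha2 ha3 hmx (maxExt_spec hne)
      · rw [Set.not_nonempty_iff_eq_empty] at hne
        have : maxExt (n - a) (k - a * (n - a)) = 0 := by
          unfold maxExt
          rw [hne, csSup_empty, Nat.bot_eq_zero]
        rw [this, mul_zero]
        exact Nat.zero_le _

end Pool.Agent.Results.MP_f1b527_co.LogCore
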