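import Mathlib
import Pool.Agent.MP_f1b527_co.Cover

set_option autoImplicit false

namespace Pool.Agent.Results.MP_f1b527_co.WeakOrderBound

open Pool.Agent.MP_f1b527_co

/-- The number of comparable pairs of a poset on `n` points. -/
noncomputable def numComp {n : ℕ} (P : PartialOrder (Fin n)) : ℕ :=
  {p : Fin n × Fin n | P.lt p.1 p.2}.ncard

/-- The number of linear extensions of a poset on `n` points (a linear extension is recorded by
the position `σ a` of each point `a`). -/
noncomputable def numExt {n : ℕ} (P : PartialOrder (Fin n)) : ℕ :=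
  {σ : Equiv.Perm (Fin n) | ∀ a b, P.lt a b → σ a < σ b}.ncard

/-- The set of values `e(P)`, for posets `P` with `n` points and `k` comparable pairs. -/
def extValues (n k : ℕ) : Set ℕ :=
  {e | ∃ P : PartialOrder (Fin n), numComp P = k ∧ numExt P = e}

/-- The number of incomparable pairs of the weak order with one level of size `c`, `b - ρ` levels
of size `q` and `ρ` levels of size `q + 1`. -/
def incPairs (b c q ρ : ℕ) : ℕ :=
  c.choose 2 + (b - ρ) * q.choose 2 + ρ * (q + 1).choose 2

/-- The number of linear extensions of the weak order with one level of size `c`, `b - ρ` levels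
of size `q` and `ρ` levels of size `q + 1`. -/
def weakExt (b c q ρ : ℕ) : ℕ :=
  c.factorial * q.factorial ^ (b - ρ) * (q + 1).factorial ^ ρ

theorem incPairs_eq {b c q ρ n : ℕ} (hρ : ρ < b) (hn : n = c + b * q + ρ) :
    incPairs b c q ρ = mm b c n := by
  subst hn
  unfold incPairs mm
  have e1 : c + b * q + ρ - c = b * q + ρ := by omega
  rw [e1, sum_div q ρ hρ.le]
  obtain ⟨w, rfl⟩ := Nat.exists_eq_add_of_lt hρ
  have e2 : ρ + w + 1 - ρ = w + 1 := by omega
  rw [e2, Nat.choose_succ_succ' q 1, Nat.choose_one_right]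
  ring

theorem weakExt_eq {b c q ρ n : ℕ} (hρ : ρ < b) (hn : n = c + b * q + ρ) :
    weakExt b c q ρ = EE b c n := by
  subst hn
  unfold weakExt EE
  have e1 : c + b * q + ρ - c = b * q + ρ := by omega
  rw [e1, prod_div q ρ hρ.le]
  obtain ⟨w, rfl⟩ := Nat.exists_eq_add_of_lt hρ
  have e2 : ρ + w + 1 - ρ = w + 1 := by omega
  rw [e2, Nat.factorial_succ, mul_pow]
  ring

open Classical in
theorem numComp_eq {n : ℕ} (P : PartialOrder (Fin n)) :
    numComp P = cp P.lt Finset.univ := by
  unfold numComp cp C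
  have h : {p : Fin n × Fin n | P.lt p.1 p.2}
      = ((Finset.univ.filter (fun p : Fin n × Fin n => P.lt p.1 p.2) : Finset (Fin n × Fin n)) :
        Set (Fin n × Fin n)) := by
    ext p
    simp
  rw [h, Set.ncard_coe_finset, Finset.card_filter, ← Finset.univ_product_univ,
    Finset.sum_product]

open Classical in
theorem exists_poset {n : ℕ} (r : Fin n → Fin n → Prop) (h1 : ∀ x, ¬ r x x)
    (h2 : ∀ a b c, r a b → r b c → r a c) :
    ∃ P : PartialOrder (Fin n), numComp P = cp r Finset.univ ∧ numExt P = (extSet r).ncard := by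
  have : IsStrictOrder (Fin n) r := { irrefl := h1, trans := h2 }
  let P : PartialOrder (Fin n) := partialOrderOfSO r
  have hlt : ∀ a b, P.lt a b ↔ r a b := fun a b => Iff.rfl
  refine ⟨P, ?_, ?_⟩
  · rw [numComp_eq]
    unfold cp
    apply Finset.sum_congr rfl
    intro a _
    apply Finset.sum_congr rfl
    intro b _
    exact C_congr (hlt a b)
  · rfl

/-- The parameters `(b, c, q, ρ, δ)` describe the pair `(n, k)`: the weak order with one level of
size `c`, `b - ρ` levels of size `q` and `ρ` levels of size `q + 1`, where `c < q`, has `n` points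
and `k - δ` comparable pairs, and `c + b * (c + δ) < n`. -/
def Describes (n k b c q ρ δ : ℕ) : Prop :=
  ρ < b ∧ c < q ∧ n = c + b * q + ρ ∧ k + incPairs b c q ρ = n.choose 2 + δ ∧
    c + b * (c + δ) < n

/-- Two-sided bounds for the maximum number `e` of linear extensions of a poset with `n` points
and `k` comparable pairs, with equality when `c = 0` or `δ = 0`. -/
theorem result (n k : ℕ) (hn : 1 ≤ n) (hk : k ≤ n.choose 2) :
    (∃ b c q ρ δ, Describes n k b c q ρ δ) ∧
    ∃ e, IsGreatest (extValues n k) e ∧ ∀ b c q ρ δ, Describes n k b c q ρ δ →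
      e * (δ + c + 1) ≤ (c + 1) * weakExt b c q ρ ∧
      (c + 1) * weakExt b c q ρ ≤ e * (q + 1) ∧
      (c = 0 ∨ δ = 0 → e * (δ + c + 1) = (c + 1) * weakExt b c q ρ) := by
  have bound : ∀ (b c q ρ δ : ℕ) (P : PartialOrder (Fin n)), Describes n k b c q ρ δ →
      numComp P = k → numExt P * (δ + c + 1) ≤ (c + 1) * weakExt b c q ρ := by
    rintro b c q ρ δ P ⟨hρ, hc, hn, hk, _⟩ hP
    rw [weakExt_eq hρ hn]
    refine ext_bound P.lt (fun x => @lt_irrefl _ P.toPreorder x)
      (fun x y z => @lt_trans _ P.toPreorder x y z) (by omega) ?_ ?_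
    · subst hn
      have : b * (c + 1) ≤ b * q := Nat.mul_le_mul_left _ hc
      nlinarith
    · rw [← incPairs_eq hρ hn, ← hk, ← hP, numComp_eq]
  have lower : ∀ b c q ρ δ : ℕ, Describes n k b c q ρ δ →
      ∃ P : PartialOrder (Fin n), numComp P = k ∧ (c + 1) * weakExt b c q ρ ≤ numExt P * (q + 1) := by
    rintro b c q ρ δ ⟨hρ, hc, hn', hk', hd⟩
    have hb : 1 ≤ b := by omega
    have hcn : c + 1 ≤ n := by omega
    have hq : (n - (c + 1)) / b ≤ q := by
      have h1 : n - (c + 1) < b * (q + 1) := by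
        rw [hn', Nat.mul_succ]; omega
      exact Nat.lt_succ_iff.mp (Nat.div_lt_of_lt_mul h1)
    have hq2 : c + δ ≤ (n - (c + 1)) / b := by
      rw [Nat.le_div_iff_mul_le hb, mul_comm]
      omega
    have hmm := mm_succ_c (b := b) hcn
    rw [incPairs_eq hρ hn'] at hk'
    obtain ⟨r, r1, r2, r3, r4⟩ := exists_order (b := b) (c := c + 1) (n := n) (j := 0) hb hcn hn
      (Or.inl rfl)
    obtain ⟨s, s1, s2, s3, s4⟩ := remove_many r r1 r2 (k := k) (by omega)
    obtain ⟨P, p1, p2⟩ := exists_poset s s1 s2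
    refine ⟨P, by rw [p1, s3], ?_⟩
    rw [zero_add, mul_one] at r4
    rw [weakExt_eq hρ hn', ← EE_succ_c hcn, p2, ← r4]
    exact Nat.mul_le_mul s4 (by omega)
  have hex : ∃ b c q ρ δ, Describes n k b c q ρ δ := by
    obtain ⟨b, c, hb, hbc, hcn, hm1, hm2⟩ := cover (m := n.choose 2 - k) hn (Nat.sub_le _ _)
    have hcq : c < (n - c) / b := by
      rw [Nat.lt_iff_add_one_le, Nat.le_div_iff_mul_le hb]
      have e1 : (b + 1) * (c + 1) = (c + 1) * b + c + 1 := by ring
      omega
    have hρ : (n - c) % b < b := Nat.mod_lt _ hb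
    have hn' : n = c + b * ((n - c) / b) + (n - c) % b := by
      have := Nat.div_add_mod (n - c) b
      omega
    have hinc := incPairs_eq hρ hn'
    obtain ⟨δ, hδ⟩ := Nat.exists_eq_add_of_le hm1
    have hmm := mm_succ_c (b := b) hcn
    have hq : c + δ ≤ (n - (c + 1)) / b := by omega
    rw [Nat.le_div_iff_mul_le hb, mul_comm] at hq
    exact ⟨b, c, (n - c) / b, (n - c) % b, δ, hρ, hcq, hn', by rw [hinc]; omega, by omega⟩
  refine ⟨hex, ?_⟩
  obtain ⟨b0, c0, q0, ρ0, δ0, h0⟩ := hex
  have hne : (extValues n k).Nonempty := by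
    obtain ⟨P, h1, _⟩ := lower b0 c0 q0 ρ0 δ0 h0
    exact ⟨numExt P, P, h1, rfl⟩
  have hbd : BddAbove (extValues n k) := by
    refine ⟨(c0 + 1) * weakExt b0 c0 q0 ρ0, ?_⟩
    rintro e ⟨Q, hQ, rfl⟩
    exact (Nat.le_mul_of_pos_right _ (Nat.succ_pos _)).trans (bound b0 c0 q0 ρ0 δ0 Q h0 hQ)
  refine ⟨sSup (extValues n k), ⟨Nat.sSup_mem hne hbd, fun e he => le_csSup hbd he⟩, ?_⟩
  intro b c q ρ δ hD
  have hup : sSup (extValues n k) * (δ + c + 1) ≤ (c + 1) * weakExt b c q ρ := by
    obtain ⟨Q, hQ, hQe⟩ := Nat.sSup_mem hne hbd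
    rw [← hQe]
    exact bound b c q ρ δ Q hD hQ
  refine ⟨hup, ?_, ?_⟩
  · obtain ⟨P, h1, h2⟩ := lower b c q ρ δ hD
    exact h2.trans (Nat.mul_le_mul_right _ (le_csSup hbd ⟨P, h1, rfl⟩))
  · intro hcd
    apply le_antisymm hup
    obtain ⟨hρ, hc, hn', hk', hd⟩ := hD
    have hb : 1 ≤ b := by omega
    obtain ⟨r, r1, r2, r3, r4⟩ := exists_order (b := b) (c := c) (n := n) (j := δ) hb
      (by omega) hn (by
        rcases hcd with rfl | rfl
        · right
          refine ⟨rfl, ?_⟩
          rw [zero_add, zero_add, mul_comm] at hd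
          exact hd
        · exact Or.inl rfl)
    obtain ⟨P, p1, p2⟩ := exists_poset r r1 r2
    rw [← incPairs_eq hρ hn'] at r3
    rw [← weakExt_eq hρ hn'] at r4
    have h1 : numExt P ≤ sSup (extValues n k) := le_csSup hbd ⟨P, by omega, rfl⟩
    rw [p2] at h1
    rcases hcd with rfl | rfl
    · calc (0 + 1) * weakExt b 0 q ρ = (extSet r).ncard * (δ + 1) := by rw [r4]; ring
        _ ≤ sSup (extValues n k) * (δ + 0 + 1) := Nat.mul_le_mul_right _ h1
    · calc (c + 1) * weakExt b c q ρ = (extSet r).ncard * (0 + 1) * (c + 1) := by rw [r4]; ring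
        _ = (extSet r).ncard * (0 + c + 1) := by ring
        _ ≤ sSup (extValues n k) * (0 + c + 1) := Nat.mul_le_mul_right _ h1

end Pool.Agent.Results.MP_f1b527_co.WeakOrderBound
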